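import Mathlib

set_option autoImplicit false

namespace Pool.Agent.Results.MP_035205_an.NoExt

open Filter Topology CStarModule WithCStarModule
open scoped InnerProductSpace ComplexOrder

section Defs
variable (A : Type) {E : Type} [NonUnitalCStarAlgebra A] [PartialOrder A] [StarOrderedRing A]
  [SMul A E] [NormedAddCommGroup E] [NormedSpace ℂ E] [CStarModule A E]

/-- `C_F`: closed span of the inner products of elements of `F` (`B_E` for `F = ⊤`). -/
noncomputable def BF (F : Submodule ℂ E) : Submodule ℂ A :=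
  (Submodule.span ℂ {a : A | ∃ x ∈ F, ∃ y ∈ F, a = ⟪x, y⟫_A}).topologicalClosure

/-- `K(F)`: closed span of the operators `x y^*`, `x, y ∈ F` (`K(E)` for `F = ⊤`). -/
noncomputable def KF (F : Submodule ℂ E) : Submodule ℂ (E →L[ℂ] E) :=
  (Submodule.span ℂ {T : E →L[ℂ] E | ∃ x ∈ F, ∃ y ∈ F, ∀ z, T z = ⟪y, z⟫_A • x}).topologicalClosure

/-- The Hilbert module norm of `(c, e)` in `B_E ⊕ E`. -/
noncomputable def nrm (c : A) (e : E) : ℝ := √‖⟪c, c⟫_A + ⟪e, e⟫_A‖

/-- The matrix with entries `b, x^*, y, k`, acting on the Hilbert module `B_E ⊕ E` by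
`(c, e) ↦ (b c + ⟨x, e⟩, y c + k e)`, has operator norm at most `r`. -/
def OpLe (b : A) (x y : E) (k : E →L[ℂ] E) (r : ℝ) : Prop :=
  ∀ c ∈ BF A (⊤ : Submodule ℂ E), ∀ e : E,
    nrm A (c * b + ⟪x, e⟫_A) (c • y + k e) ≤ r * nrm A c e

/-- `Q` maps the subspace `S` linearly into `S'` and fixes the elements of `S'`. -/
def Proj {V : Type} [AddCommGroup V] [Module ℂ V] (S S' : Submodule ℂ V) (Q : S →ₗ[ℂ] V) : Prop :=
  (∀ v, Q v ∈ S') ∧ ∀ v, v.1 ∈ S' → Q v = v.1

/-- `x ⟨y, z⟩ ∈ F` for `x, y, z ∈ F`. -/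
def Ternary (F : Submodule ℂ E) : Prop := ∀ x ∈ F, ∀ y ∈ F, ∀ z ∈ F, ⟪y, z⟫_A • x ∈ F

/-- `P` is the `(2,1)`-corner of a blockwise conditional expectation `L(E) → L(F)`; such a map is
given by its four corner maps `Q₁₁, Q₁₂, P, Q₂₂`. -/
def Extends (F : Submodule ℂ E) (P : E →L[ℂ] E) : Prop :=
  ∃ Q₁₁ Q₁₂ Q₂₂, Proj (BF A (⊤ : Submodule ℂ E)) (BF A F) Q₁₁ ∧ Proj ⊤ F Q₁₂ ∧
    Proj (KF A (⊤ : Submodule ℂ E)) (KF A F) Q₂₂ ∧
    ∀ b x y k r, OpLe A b.1 x.1 y k.1 r → OpLe A (Q₁₁ b) (Q₁₂ x) (P y) (Q₂₂ k) r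

/-- Every contractive idempotent onto a closed ternary subspace of `E` extends. -/
def AllExtend (E : Type) [SMul A E] [NormedAddCommGroup E] [NormedSpace ℂ E] [CStarModule A E] : Prop :=
  ∀ F : Submodule ℂ E, IsClosed (F : Set E) → Ternary A F → ∀ P : E →L[ℂ] E, (∀ x, P x ∈ F) →
    (∀ x ∈ F, P x = x) → ‖P‖ ≤ 1 → Extends A F P
end Defs

section Gen
variable {A : Type} [CStarAlgebra A] [PartialOrder A] [StarOrderedRing A] (J : Ideal A)

noncomputable instance idealMod : CStarModule A J where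
  inner x y := y.1 * star x.1
  inner_add_right := by intro x y z; simp [add_mul]
  inner_self_nonneg := mul_star_self_nonneg _
  inner_self := by
    intro x
    rw [CStarRing.mul_star_self_eq_zero_iff]
    simp
  inner_op_smul_right := by intro a x y; exact mul_assoc _ _ _
  inner_smul_right_complex := by intro z x y; simp
  star_inner x y := by simp
  norm_eq_sqrt_norm_inner_self x := by
    rw [CStarRing.norm_self_mul_star, Real.sqrt_mul_self (norm_nonneg _)]
    rfl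

abbrev EE := C⋆ᵐᵒᵈ(A, J × A)

theorem inn (x y : EE J) : ⟪x, y⟫_A = y.1.1 * star x.1.1 + y.2 * star x.2 := rfl

/-- the first summand -/
noncomputable def FF : Submodule ℂ (EE J) where
  carrier := {x | x.2 = 0}
  add_mem' := fun {a b} ha hb => by
    have h1 : a.2 = 0 := ha
    have h2 : b.2 = 0 := hb
    show a.2 + b.2 = 0
    simp [h1, h2]
  zero_mem' := rfl
  smul_mem' := fun c a ha => by
    have h1 : a.2 = 0 := ha
    show c • a.2 = 0
    simp [h1]

noncomputable def P0 : EE J →ₗ[ℂ] EE J where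
  toFun x := (equiv A _).symm (x.1, 0)
  map_add' x y := by
    apply (equiv A _).injective
    exact Prod.ext rfl (add_zero _).symm
  map_smul' c x := by
    apply (equiv A _).injective
    exact Prod.ext rfl (smul_zero c).symm

theorem P0_norm (x : EE J) : ‖P0 J x‖ ≤ 1 * ‖x‖ := by
  have h := max_le_prod_norm x
  have h2 := prod_norm_le_norm_add (P0 J x)
  have h3 : (P0 J x).1 = x.1 := rfl
  have h4 : (P0 J x).2 = 0 := rfl
  rw [h3, h4, norm_zero] at h2
  linarith [le_max_left ‖x.1‖ ‖x.2‖]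

theorem mem_top' (b : A) : b ∈ BF (E := EE J) A ⊤ :=
  Submodule.le_topologicalClosure _ (Submodule.subset_span
    ⟨(equiv A _).symm (0, 1), trivial, (equiv A _).symm (0, b), trivial, by rw [inn]; simp⟩)

theorem BF_le [J.IsTwoSided] (hJ : IsClosed (J : Set A)) : BF (E := EE J) A (FF J) ≤ J.restrictScalars ℂ := by
  refine Submodule.topologicalClosure_minimal _ (Submodule.span_le.mpr ?_) hJ
  rintro _ ⟨x, hx, y, -, rfl⟩
  have h1 : x.2 = 0 := hx
  show ⟪x, y⟫_A ∈ J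
  rw [inn, h1, star_zero, mul_zero, add_zero]
  exact J.mul_mem_right _ y.1.2

theorem opLe_iff [Nontrivial A] (b : A) (r : ℝ) : OpLe (E := EE J) A b 0 0 0 r ↔ ‖b‖ ≤ r := by
  have z : ∀ e : EE J, ⟪(0 : EE J), e⟫_A = 0 := fun e => by rw [inn]; simp
  have e1 : ∀ (c : A) (e : EE J), √‖⟪c * b + ⟪(0 : EE J), e⟫_A, c * b + ⟪(0 : EE J), e⟫_A⟫_A +
      ⟪c • (0 : EE J) + (0 : EE J →L[ℂ] EE J) e, c • (0 : EE J) + (0 : EE J →L[ℂ] EE J) e⟫_A‖
      = ‖c * b‖ := by
    intro c e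
    have h0 : c • (0 : EE J) + (0 : EE J →L[ℂ] EE J) e = 0 := by
      apply (equiv A _).injective
      refine Prod.ext (Subtype.ext ?_) ?_
      · show c * 0 + 0 = 0
        simp
      · show c * 0 + 0 = 0
        simp
    rw [h0, z, z, add_zero, add_zero, ← norm_eq_sqrt_norm_inner_self]
  constructor
  · intro h
    have := h 1 (mem_top' J 1) 0
    rw [nrm, nrm, e1, z, add_zero, ← norm_eq_sqrt_norm_inner_self] at this
    simpa using this
  · intro h c _ e
    rw [nrm, nrm, e1]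
    have h1 : ‖c‖ ≤ √‖⟪c, c⟫_A + ⟪e, e⟫_A‖ := by
      rw [norm_eq_sqrt_norm_inner_self (A := A) c]
      exact Real.sqrt_le_sqrt (CStarAlgebra.norm_le_norm_of_nonneg_of_le inner_self_nonneg
        (le_add_of_nonneg_right inner_self_nonneg))
    have := norm_mul_le c b
    nlinarith [norm_nonneg b, norm_nonneg c]

theorem gen [J.IsTwoSided] [Nontrivial A] (hJ : IsClosed (J : Set A)) (h : AllExtend A (EE J)) :
    ∃ Q : A →ₗ[ℂ] A, (∀ b, Q b ∈ J) ∧ (∀ g ∈ J, Q (g * star g) = g * star g) ∧ ∀ b, ‖Q b‖ ≤ ‖b‖ := by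
  obtain ⟨Q, Q₁, Q₂, ⟨h1, h2⟩, -, -, h3⟩ := h (FF J)
    (isClosed_eq (continuous_snd.comp (equivL ℂ (A := A) (E := J × A)).continuous) continuous_const)
    (fun x hx y _ z _ => by
      have h1 : x.2 = 0 := hx
      show ⟪y, z⟫_A * x.2 = 0
      rw [h1, mul_zero])
    ((P0 J).mkContinuous 1 (P0_norm J)) (fun x => rfl)
    (fun x hx => by
      have h1 : x.2 = 0 := hx
      apply (equiv A _).injective
      exact Prod.ext rfl h1.symm)
    ((P0 J).mkContinuous_norm_le zero_le_one _)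
  refine ⟨Q ∘ₗ LinearMap.codRestrict _ LinearMap.id (mem_top' J), fun b => BF_le J hJ (h1 _),
    fun g hg => h2 ⟨_, mem_top' J _⟩ ?_, fun b => ?_⟩
  · exact Submodule.le_topologicalClosure _ (Submodule.subset_span
      ⟨(equiv A _).symm (⟨g, hg⟩, 0), rfl, (equiv A _).symm (⟨g, hg⟩, 0), rfl, by rw [inn]; simp⟩)
  · have := h3 ⟨b, mem_top' J b⟩ 0 0 0 _ ((opLe_iff J _ _).mpr le_rfl)
    rw [map_zero, map_zero, map_zero] at this
    exact (opLe_iff J _ _).mp this

end Gen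

abbrev AA := C(Set.Icc (0 : ℝ) 1, ℂ)

/-- functions vanishing at `0` -/
def II : Ideal AA where
  carrier := {f | f 0 = 0}
  add_mem' := fun {a b} ha hb => by
    have h1 : a 0 = 0 := ha
    have h2 : b 0 = 0 := hb
    show (a + b) 0 = 0
    simp [h1, h2]
  zero_mem' := rfl
  smul_mem' := fun c a ha => by
    have h1 : a 0 = 0 := ha
    show (c * a) 0 = 0
    simp [h1]

theorem II_closed : IsClosed (II : Set AA) :=
  isClosed_eq (ContinuousEvalConst.continuous_eval_const 0) continuous_const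

theorem bump (t : Set.Icc (0 : ℝ) 1) (ht : 0 < t.1) :
    ∃ g ∈ II, (g * star g) t = 1 ∧ ‖1 - (2 : ℂ) • (g * star g)‖ ≤ 1 := by
  let g : AA := ⟨fun s => ((min (s.1 / t.1) 1 : ℝ) : ℂ), by fun_prop⟩
  have hg : g ∈ II := by
    show ((min ((0 : ℝ) / t.1) 1 : ℝ) : ℂ) = 0
    simp
  refine ⟨g, hg, ?_, ?_⟩
  · simp [g, div_self ht.ne']
  · refine (ContinuousMap.norm_le _ zero_le_one).mpr fun s => ?_
    have h0 : 0 ≤ min (s.1 / t.1) 1 := le_min (div_nonneg s.2.1 ht.le) zero_le_one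
    have h1 : min (s.1 / t.1) 1 ≤ 1 := min_le_right _ _
    have e : (1 - (2 : ℂ) • (g * star g)) s = ((1 - 2 * (min (s.1 / t.1) 1) ^ 2 : ℝ) : ℂ) := by
      simp [g, sq]
    rw [e, Complex.norm_real, Real.norm_eq_abs, abs_le]
    constructor <;> nlinarith

theorem noQ (Q : AA →ₗ[ℂ] AA) (h1 : ∀ b, Q b ∈ II) (h2 : ∀ g ∈ II, Q (g * star g) = g * star g)
    (key : ∀ b, ‖Q b‖ ≤ ‖b‖) : False := by
  set e : AA := Q 1 with he
  have he0 : e 0 = 0 := h1 _
  have hlow : ∀ t : Set.Icc (0 : ℝ) 1, 0 < t.1 → 1 ≤ ‖e t‖ := by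
    intro t ht
    obtain ⟨g, hg, hat, hn⟩ := bump t ht
    have h4 := key (1 - (2 : ℂ) • (g * star g))
    rw [map_sub, map_smul, h2 g hg, ← he] at h4
    have h5 := ((e - (2 : ℂ) • (g * star g)).norm_coe_le_norm t).trans (h4.trans hn)
    have h6 : (e - (2 : ℂ) • (g * star g)) t = e t - 2 := by
      rw [ContinuousMap.sub_apply, ContinuousMap.smul_apply, hat]; simp
    rw [h6] at h5
    have h7 := norm_sub_norm_le (2 : ℂ) (e t)
    rw [norm_sub_rev] at h7
    simp only [Complex.norm_ofNat] at h7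
    linarith
  obtain ⟨δ, hδ, hd⟩ := Metric.continuousAt_iff.mp (e.continuous.continuousAt (x := 0)) 1 one_pos
  have hm : 0 < min (δ / 2) 1 := by positivity
  have h8 := hd (x := ⟨min (δ / 2) 1, hm.le, min_le_right _ _⟩) (by
    rw [Subtype.dist_eq, Real.dist_eq]
    simp only [Set.Icc.coe_zero, sub_zero]
    rw [abs_of_pos hm]
    linarith [min_le_left (δ / 2) 1])
  rw [he0, dist_zero_right] at h8
  exact absurd (hlow _ hm) (not_le.mpr h8)

theorem fin {A : Type} [CStarAlgebra A] [PartialOrder A] [StarOrderedRing A] (J : Ideal A)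
    [J.IsTwoSided] [Nontrivial A] (hJ : IsClosed (J : Set A))
    (h : ∀ Q : A →ₗ[ℂ] A, (∀ b, Q b ∈ J) → (∀ g ∈ J, Q (g * star g) = g * star g) →
      (∀ b, ‖Q b‖ ≤ ‖b‖) → False) :
    ∃ (A E : Type) (_ : NonUnitalCStarAlgebra A) (_ : PartialOrder A)
    (_ : StarOrderedRing A) (_ : SMul A E) (_ : NormedAddCommGroup E) (_ : NormedSpace ℂ E)
    (_ : CStarModule A E), CompleteSpace E ∧ ¬ AllExtend A E := by
  haveI : CompleteSpace J := hJ.completeSpace_coe
  refine ⟨A, EE J, inferInstance, inferInstance, inferInstance, inferInstance, inferInstance,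
    inferInstance, inferInstance, inferInstance, fun hh => ?_⟩
  obtain ⟨Q, h1, h2, h3⟩ := gen J hJ hh
  exact h Q h1 h2 h3

theorem result : ∃ (A E : Type) (_ : NonUnitalCStarAlgebra A) (_ : PartialOrder A)
    (_ : StarOrderedRing A) (_ : SMul A E) (_ : NormedAddCommGroup E) (_ : NormedSpace ℂ E)
    (_ : CStarModule A E), CompleteSpace E ∧ ¬ AllExtend A E :=
  fin II II_closed noQ

end Pool.Agent.Results.MP_035205_an.NoExt
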